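import Pool.Agent.helper62.VN.SpecE

/-!
# vne:NCH: the chart
-/

set_option autoImplicit false

open scoped MatrixGroups ContDiff Topology UpperHalfPlane
open UpperHalfPlane MeasureTheory Filter Set

namespace Pool.Agent.VNE

open Pool.Agent.RS Pool.Agent.VQE

/-! ### numbers -/

theorem NCH_ip {K p : ℝ} (hK : 1 ≤ K) (h : 1 / K ≤ p ∧ p ≤ K) : 0 < p ∧ 0 < 1 / p ∧ 1 / p ≤ K := by
  have hK0 : 0 < K := by linarith
  have hp : 0 < p := lt_of_lt_of_le (by positivity) h.1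
  refine ⟨hp, by positivity, ?_⟩
  rw [div_le_iff₀ hp]
  have h1 := h.1
  rw [div_le_iff₀ hK0] at h1
  linarith

theorem NCH_b {K p κ J W : ℝ} (hK : 1 ≤ K) (hp : 1 / K ≤ p ∧ p ≤ K) (hκ : |κ| ≤ 2 * K) :
    |(W - κ * J / p) / 2| ≤ K ^ 2 * (|J| + |W|) := by
  obtain ⟨p0, p1, p2⟩ := NCH_ip hK hp
  have h1 : κ * J / p = κ * J * (1 / p) := by ring
  have h2 : |κ * J * (1 / p)| ≤ 2 * K * |J| * K := by
    rw [abs_mul, abs_mul, abs_of_pos p1]
    gcongr
  rw [h1, abs_div, abs_two]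
  have h3 : |W - κ * J * (1 / p)| ≤ |W| + 2 * K * |J| * K := (abs_sub _ _).trans (by linarith)
  have hW := abs_nonneg W
  have hK2 : 1 ≤ K ^ 2 := one_le_pow₀ hK
  rw [div_le_iff₀ (by norm_num)]
  nlinarith

theorem NCH_d {K p p' κ κ' J J' W W' n : ℝ} (hK : 1 ≤ K) (hp : 1 / K ≤ p ∧ p ≤ K) (hp' : 1 / K ≤ p' ∧ p' ≤ K) (hκ : |κ| ≤ 2 * K)
    (hκ' : |κ'| ≤ 2 * K) (hn : 0 ≤ n) (h1 : |κ' - κ| ≤ K * n) (h2 : |p' - p| ≤ K * n) :
    |(W' - κ' * J' / p') / 2 - (W - κ * J / p) / 2| ≤ 2 * K ^ 4 * (|J - J'| + |W - W'| + n * (|J| + |W|)) := by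
  obtain ⟨p0, p1, p2⟩ := NCH_ip hK hp
  obtain ⟨q0, q1, q2⟩ := NCH_ip hK hp'
  have hi : 1 / p' - 1 / p = (p - p') * (1 / p) * (1 / p') := by
    field_simp
  have e1 : (W' - κ' * J' / p') / 2 - (W - κ * J / p) / 2 =
      ((W' - W) - (κ' * (J' - J) * (1 / p') + J * ((κ' - κ) * (1 / p') + κ * ((p - p') * (1 / p) * (1 / p'))))) / 2 := by
    rw [← hi]
    ring
  have a1 : |κ' * (J' - J) * (1 / p')| ≤ 2 * K * |J - J'| * K := by
    rw [abs_mul, abs_mul, abs_of_pos q1, abs_sub_comm J' J]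
    gcongr
  have a2 : |(κ' - κ) * (1 / p')| ≤ K * n * K := by
    rw [abs_mul, abs_of_pos q1]
    gcongr
  have a3 : |κ * ((p - p') * (1 / p) * (1 / p'))| ≤ 2 * K * (K * n * K * K) := by
    rw [abs_mul, abs_mul, abs_mul, abs_of_pos p1, abs_of_pos q1, abs_sub_comm p p']
    gcongr
  have a4 : |J * ((κ' - κ) * (1 / p') + κ * ((p - p') * (1 / p) * (1 / p')))| ≤ |J| * (K * n * K + 2 * K * (K * n * K * K)) := by
    rw [abs_mul]
    exact mul_le_mul_of_nonneg_left ((abs_add_le _ _).trans (add_le_add a2 a3)) (abs_nonneg _)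
  rw [e1, abs_div, abs_two, div_le_iff₀ (by norm_num)]
  have a5 : |(W' - W) - (κ' * (J' - J) * (1 / p') + J * ((κ' - κ) * (1 / p') + κ * ((p - p') * (1 / p) * (1 / p'))))| ≤
      |W - W'| + (2 * K * |J - J'| * K + |J| * (K * n * K + 2 * K * (K * n * K * K))) := by
    refine (abs_sub _ _).trans ?_
    rw [abs_sub_comm W' W]
    exact add_le_add le_rfl ((abs_add_le _ _).trans (add_le_add a1 a4))
  refine a5.trans ?_
  have b1 : 1 ≤ K ^ 2 := one_le_pow₀ hK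
  have b2 : K ^ 2 ≤ K ^ 4 := pow_le_pow_right₀ hK (by norm_num)
  have b3 := abs_nonneg (J - J')
  have b4 := abs_nonneg (W - W')
  have b5 := abs_nonneg J
  have b6 := abs_nonneg W
  have b7 : 0 ≤ |J| * n := mul_nonneg b5 hn
  have b8 : 0 ≤ n * |W| := mul_nonneg hn b6
  have c1 : |W - W'| ≤ 4 * K ^ 4 * |W - W'| := by nlinarith
  have c2 : 2 * K * |J - J'| * K ≤ 4 * K ^ 4 * |J - J'| := by nlinarith
  have c3 : |J| * (K * n * K + 2 * K * (K * n * K * K)) ≤ 4 * K ^ 4 * (|J| * n) := by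
    have : |J| * (K * n * K + 2 * K * (K * n * K * K)) = (K ^ 2 + 2 * K ^ 4) * (|J| * n) := by ring
    rw [this]
    exact mul_le_mul_of_nonneg_right (by linarith) b7
  have c4 : 0 ≤ 4 * K ^ 4 * (n * |W|) := by positivity
  have e2 : 2 * K ^ 4 * (|J - J'| + |W - W'| + n * (|J| + |W|)) * 2 =
      4 * K ^ 4 * |J - J'| + 4 * K ^ 4 * |W - W'| + 4 * K ^ 4 * (|J| * n) + 4 * K ^ 4 * (n * |W|) := by ring
  rw [e2]
  linarith

theorem NCH_sq {x y : ℝ} (hx : 1 / 4 ≤ x) (hy : 1 / 4 ≤ y) : |√x - √y| ≤ |x - y| := by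
  have h1 : 1 / 2 ≤ √x := Real.le_sqrt_of_sq_le (by linarith)
  have h2 : 1 / 2 ≤ √y := Real.le_sqrt_of_sq_le (by linarith)
  have h3 : x - y = (√x - √y) * (√x + √y) := by
    have e1 := Real.mul_self_sqrt (show 0 ≤ x by linarith)
    have e2 := Real.mul_self_sqrt (show 0 ≤ y by linarith)
    nlinarith
  rw [h3, abs_mul, abs_of_pos (show 0 < √x + √y by linarith)]
  have h4 := abs_nonneg (√x - √y)
  nlinarith

/-! ### the matrices `dg` -/

theorem NCH_dg {b c : ℝ} (h : 0 ≤ 1 + b * c) : (dg b c).1 = !![√(1 + b * c), b; c, √(1 + b * c)] := by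
  unfold dg
  rw [dif_pos h]

theorem NCH_bc {b c : ℝ} (hb : |b| ≤ 1 / 16) (hc : |c| ≤ 1 / 16) : |b * c| ≤ 1 / 256 ∧ 255 / 256 ≤ 1 + b * c ∧ 1 / 4 ≤ 1 + b * c ∧
    0 ≤ 1 + b * c ∧ 3 / 4 ≤ √(1 + b * c) ∧ √(1 + b * c) ≤ 2 ∧ |√(1 + b * c) - 1| ≤ |b * c| := by
  have h1 : |b * c| ≤ 1 / 256 := by
    rw [abs_mul]
    have := abs_nonneg b
    have := abs_nonneg c
    nlinarith
  have h2 := abs_le.1 h1
  refine ⟨h1, by linarith, by linarith, by linarith, Real.le_sqrt_of_sq_le (by linarith), ?_, ?_⟩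
  · rw [Real.sqrt_le_left (by norm_num)]
    linarith
  · have h3 := NCH_sq (x := 1 + b * c) (y := 1) (by linarith) (by norm_num)
    rw [Real.sqrt_one] at h3
    rwa [add_sub_cancel_left] at h3

theorem NCH_inv (A B : SL(2, ℝ)) :
    (A⁻¹ * B).1 0 0 = A.1 1 1 * B.1 0 0 - A.1 0 1 * B.1 1 0 ∧ (A⁻¹ * B).1 0 1 = A.1 1 1 * B.1 0 1 - A.1 0 1 * B.1 1 1 ∧
    (A⁻¹ * B).1 1 0 = A.1 0 0 * B.1 1 0 - A.1 1 0 * B.1 0 0 ∧ (A⁻¹ * B).1 1 1 = A.1 0 0 * B.1 1 1 - A.1 1 0 * B.1 0 1 := by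
  have h : (A⁻¹ * B).1 = A.1.adjugate * B.1 := rfl
  rw [h, Matrix.adjugate_fin_two]
  refine ⟨?_, ?_, ?_, ?_⟩ <;> simp [Matrix.mul_apply, Fin.sum_univ_two] <;> ring

theorem NCH_nm (D : SL(2, ℝ)) : |D.1 0 1| ≤ nm D ∧ |D.1 1 0| ≤ nm D := by
  unfold nm
  exact ⟨(le_max_right _ _).trans (le_max_left _ _), (le_max_left _ _).trans (le_max_right _ _)⟩

/-- two matrices `dg` -/
theorem NCH_two {b c b' c' s : ℝ} (hb : |b| ≤ 1 / 16) (hc : |c| ≤ 1 / 16) (hb' : |b'| ≤ 1 / 16) (hc' : |c'| ≤ 1 / 16)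
    (h1 : |b' - b| ≤ s) (h2 : |c' - c| ≤ s) :
    |√(1 + b' * c') - √(1 + b * c)| ≤ (|b'| + |c|) * s ∧ nm ((dg b c)⁻¹ * dg b' c') ≤ 3 * s := by
  obtain ⟨-, -, x3, x4, x5, x6, -⟩ := NCH_bc hb hc
  obtain ⟨-, -, y3, y4, y5, y6, -⟩ := NCH_bc hb' hc'
  have hs : 0 ≤ s := (abs_nonneg _).trans h1
  have hq : |√(1 + b' * c') - √(1 + b * c)| ≤ (|b'| + |c|) * s := by
    refine (NCH_sq y3 x3).trans ?_
    have e : 1 + b' * c' - (1 + b * c) = b' * (c' - c) + c * (b' - b) := by ring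
    rw [e, add_mul]
    refine (abs_add_le _ _).trans (add_le_add ?_ ?_)
    · rw [abs_mul]
      exact mul_le_mul_of_nonneg_left h2 (abs_nonneg _)
    · rw [abs_mul]
      exact mul_le_mul_of_nonneg_left h1 (abs_nonneg _)
  refine ⟨hq, ?_⟩
  have hq' : |√(1 + b' * c') - √(1 + b * c)| ≤ s := by
    refine hq.trans ?_
    nlinarith [abs_nonneg b', abs_nonneg c]
  obtain ⟨i1, i2, i3, i4⟩ := NCH_inv (dg b c) (dg b' c')
  rw [NCH_dg x4, NCH_dg y4] at i1 i2 i3 i4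
  simp only [Matrix.of_apply, Matrix.cons_val', Matrix.cons_val_zero, Matrix.cons_val_one, Matrix.cons_val_fin_one] at i1 i2 i3 i4
  have hsq := Real.mul_self_sqrt x4
  set a := √(1 + b * c) with ha
  set a' := √(1 + b' * c') with ha'
  have e1 : a * a' - b * c' - 1 = a * (a' - a) - b * (c' - c) := by
    have : a * a = 1 + b * c := hsq
    linear_combination this
  have e2 : a * b' - b * a' = a * (b' - b) - b * (a' - a) := by ring
  have e3 : a * c' - c * a' = a * (c' - c) - c * (a' - a) := by ring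
  have e4 : a * a' - c * b' - 1 = a * (a' - a) - c * (b' - b) := by
    have : a * a = 1 + b * c := hsq
    linear_combination this
  have hb2 : |b| ≤ 1 := by linarith
  have hc2 : |c| ≤ 1 := by linarith
  have ha2 : |a| ≤ 2 := by rw [abs_of_nonneg (by linarith)]; exact x6
  have gen : ∀ u v x y : ℝ, |u| ≤ 2 → |v| ≤ 1 → |x| ≤ s → |y| ≤ s → |u * x - v * y| ≤ 3 * s := by
    intro u v x y hu hv hx hy
    refine (abs_sub _ _).trans ?_
    rw [abs_mul, abs_mul]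
    have g1 : |u| * |x| ≤ 2 * s := mul_le_mul hu hx (abs_nonneg _) (by norm_num)
    have g2 : |v| * |y| ≤ 1 * s := mul_le_mul hv hy (abs_nonneg _) (by norm_num)
    linarith
  unfold nm
  rw [i1, i2, i3, i4]
  refine max_le (max_le ?_ ?_) (max_le ?_ ?_)
  · rw [e1]; exact gen _ _ _ _ ha2 hb2 hq' h2
  · rw [e2]; exact gen _ _ _ _ ha2 hb2 h1 hq'
  · rw [e3]; exact gen _ _ _ _ ha2 hc2 h2 hq'
  · rw [e4]; exact gen _ _ _ _ ha2 hc2 hq' h1

/-! ### the chart -/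

theorem NCH_k {K m : ℝ} (hK : 1 ≤ K) (hm : |m| ≤ K) : |1 + m| ≤ 2 * K ∧ |1 - m| ≤ 2 * K := by
  constructor
  · refine (abs_add_le _ _).trans ?_
    rw [abs_one]
    linarith
  · refine (abs_sub _ _).trans ?_
    rw [abs_one]
    linarith

theorem NCH_bj {K : ℝ} (hK : 1 ≤ K) {X : Fd} (hX : HF K X) (g : SL(2, ℝ)) (J W : ℝ) :
    |bj X g J W| ≤ K ^ 2 * (|J| + |W|) ∧ |cj X g J W| ≤ K ^ 2 * (|J| + |W|) := by
  obtain ⟨k1, k2⟩ := NCH_k hK (hX.qb g).2.1
  constructor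
  · unfold bj
    exact NCH_b hK (hX.pb g) k1
  · unfold cj
    have h := NCH_b (J := J) (W := -W) hK (hX.pb g) k2
    rwa [abs_neg] at h

theorem NCH_bd {K : ℝ} (hK : 1 ≤ K) {X : Fd} (hX : HF K X) (h0 : ∀ D, 0 ≤ nm D) (g E : SL(2, ℝ)) (J W J' W' : ℝ) :
    |bj X (g * E) J' W' - bj X g J W| ≤ 2 * K ^ 4 * (|J - J'| + |W - W'| + nm E * (|J| + |W|)) ∧
    |cj X (g * E) J' W' - cj X g J W| ≤ 2 * K ^ 4 * (|J - J'| + |W - W'| + nm E * (|J| + |W|)) := by
  obtain ⟨k1, k2⟩ := NCH_k hK (hX.qb g).2.1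
  obtain ⟨k1', k2'⟩ := NCH_k hK (hX.qb (g * E)).2.1
  obtain ⟨l1, -, l3, -⟩ := hX.lip g E
  constructor
  · unfold bj
    refine NCH_d hK (hX.pb g) (hX.pb (g * E)) k1 k1' (h0 E) ?_ l1
    rwa [add_sub_add_left_eq_sub]
  · unfold cj
    have h := NCH_d (J := J) (J' := J') (W := -W) (W' := -W') hK (hX.pb g) (hX.pb (g * E)) k2 k2' (h0 E) (by
      rw [sub_sub_sub_cancel_left, abs_sub_comm]
      exact l3) l1
    rw [abs_neg] at h
    have e : |-W - -W'| = |W - W'| := by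
      rw [neg_sub_neg, abs_sub_comm]
    rwa [e] at h

theorem NCH_small {K r : ℝ} (hK : 1 ≤ K) (hr : 0 ≤ r) (h : r ≤ 1 / (16 * K ^ 6)) : K ^ 2 * r ≤ 1 / 16 ∧ 2 * K ^ 3 * r ≤ 1 / (8 * K) ∧
    2 * K ^ 6 * r ≤ 1 / 8 ∧ r ≤ 1 / K ∧ r ≤ 1 := by
  have hK0 : 0 < K := by linarith
  have h6 : 16 * K ^ 6 * r ≤ 1 := by
    rw [le_div_iff₀ (by positivity)] at h
    linarith
  have k1 : K ≤ K ^ 6 := le_self_pow₀ hK (by norm_num)
  have k2 : K ^ 2 ≤ K ^ 6 := pow_le_pow_right₀ hK (by norm_num)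
  have k4 : K ^ 4 ≤ K ^ 6 := pow_le_pow_right₀ hK (by norm_num)
  have j1 : K * r ≤ K ^ 6 * r := mul_le_mul_of_nonneg_right k1 hr
  have j2 : K ^ 2 * r ≤ K ^ 6 * r := mul_le_mul_of_nonneg_right k2 hr
  have j4 : K ^ 4 * r ≤ K ^ 6 * r := mul_le_mul_of_nonneg_right k4 hr
  have j0 : 1 * r ≤ K ^ 6 * r := mul_le_mul_of_nonneg_right (one_le_pow₀ hK) hr
  refine ⟨by linarith, ?_, by linarith, ?_, by linarith⟩
  · rw [le_div_iff₀ (by positivity)]
    have : 2 * K ^ 3 * r * (8 * K) = 16 * (K ^ 4 * r) := by ring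
    rw [this]
    linarith
  · rw [le_div_iff₀ hK0]
    have : 0 ≤ K ^ 6 * r := by positivity
    linarith

theorem NCH_sb {K : ℝ} (hK : 1 ≤ K) {X : Fd} (hX : HF K X) {g : SL(2, ℝ)} {J W : ℝ} (h : |J| + |W| ≤ 1 / (16 * K ^ 6)) :
    |bj X g J W| ≤ 1 / 16 ∧ |cj X g J W| ≤ 1 / 16 := by
  obtain ⟨s1, -⟩ := NCH_small hK (by positivity) h
  obtain ⟨b1, b2⟩ := NCH_bj hK hX g J W
  exact ⟨b1.trans s1, b2.trans s1⟩

theorem NCH_sj {K : ℝ} (hK : 1 ≤ K) {X : Fd} (hX : HF K X) (hnm : ∀ b c : ℝ, |b| ≤ 1 / 8 → |c| ≤ 1 / 8 → nm (dg b c) ≤ max |b| |c|)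
    {g : SL(2, ℝ)} {J W : ℝ} (h : |J| + |W| ≤ 1 / (16 * K ^ 6)) :
    1 / (2 * K) ≤ √(1 + bj X g J W * cj X g J W) * X.p (g * dg (bj X g J W) (cj X g J W)) +
      (bj X g J W + cj X g J W) * X.q (g * dg (bj X g J W) (cj X g J W)) ∧
    |sj X g J W - 1| ≤ 12 * K ^ 4 * (|J| + |W|) := by
  have hK0 : 0 < K := by linarith
  set r := |J| + |W| with hr
  have hr0 : 0 ≤ r := by positivity
  obtain ⟨s1, s2, -, s4, -⟩ := NCH_small hK hr0 h
  obtain ⟨b1, b2⟩ := NCH_bj hK hX g J W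
  obtain ⟨c1, c2⟩ := NCH_sb hK hX (g := g) h
  unfold sj sg
  set b := bj X g J W with hb
  set c := cj X g J W with hc
  obtain ⟨-, -, -, -, x5, x6, -⟩ := NCH_bc c1 c2
  set a := √(1 + b * c) with ha
  have hD : nm (dg b c) ≤ K ^ 2 * r := (hnm b c (by linarith) (by linarith)).trans (max_le b1 b2)
  obtain ⟨l1, -⟩ := hX.lip g (dg b c)
  have hp2 := (hX.pb (g * dg b c)).1
  have hq1 := (hX.qb g).1
  have hq2 := (hX.qb (g * dg b c)).1
  set p1 := X.p g with hp1d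
  set p2 := X.p (g * dg b c) with hp2d
  set q1 := X.q g with hq1d
  set q2 := X.q (g * dg b c) with hq2d
  have hbc : |b + c| ≤ 2 * K ^ 2 * r := (abs_add_le _ _).trans (by linarith)
  have hbq : |(b + c) * q2| ≤ 2 * K ^ 3 * r := by
    rw [abs_mul]
    calc |b + c| * |q2| ≤ 2 * K ^ 2 * r * K := mul_le_mul hbc hq2 (abs_nonneg _) (by positivity)
      _ = 2 * K ^ 3 * r := by ring
  have hden : 1 / (2 * K) ≤ a * p2 + (b + c) * q2 := by
    have g1 : 3 / 4 * (1 / K) ≤ a * p2 := mul_le_mul x5 hp2 (by positivity) (by linarith)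
    have g2 := (abs_le.1 hbq).1
    have g3 : (1 : ℝ) / (2 * K) = 1 / 2 * (1 / K) := by
      field_simp
    have g4 : (1 : ℝ) / (8 * K) = 1 / 8 * (1 / K) := by
      field_simp
    rw [g4] at s2
    rw [g3]
    have g5 : 0 < 1 / K := by positivity
    linarith
  refine ⟨hden, ?_⟩
  have hden0 : 0 < a * p2 + (b + c) * q2 := lt_of_lt_of_le (by positivity) hden
  rw [div_sub_one hden0.ne', abs_div, abs_of_pos hden0, div_le_iff₀ hden0]
  have hnum : |a * p1 - (b + c) * q1 - (a * p2 + (b + c) * q2)| ≤ 6 * K ^ 3 * r := by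
    have e : a * p1 - (b + c) * q1 - (a * p2 + (b + c) * q2) = -(a * (p2 - p1)) - (b + c) * (q1 + q2) := by ring
    rw [e]
    refine (abs_sub _ _).trans ?_
    rw [abs_neg, abs_mul, abs_mul, abs_of_nonneg (show 0 ≤ a by linarith)]
    have g1 : a * |p2 - p1| ≤ 2 * (K * (K ^ 2 * r)) :=
      mul_le_mul x6 (l1.trans (mul_le_mul_of_nonneg_left hD hK0.le)) (abs_nonneg _) (by norm_num)
    have g2 : |b + c| * |q1 + q2| ≤ 2 * K ^ 2 * r * (K + K) :=
      mul_le_mul hbc ((abs_add_le _ _).trans (add_le_add hq1 hq2)) (abs_nonneg _) (by positivity)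
    calc a * |p2 - p1| + |b + c| * |q1 + q2| ≤ 2 * (K * (K ^ 2 * r)) + 2 * K ^ 2 * r * (K + K) := add_le_add g1 g2
      _ = 6 * K ^ 3 * r := by ring
  refine hnum.trans ?_
  have e1 : 12 * K ^ 4 * r * (1 / (2 * K)) = 6 * K ^ 3 * r := by
    field_simp
    ring
  rw [← e1]
  exact mul_le_mul_of_nonneg_left hden (by positivity)

/-! ### continuity -/

theorem NCH_cont {K : ℝ} (F : SL(2, ℝ) → ℝ) (h : ∀ g D, |F (g * D) - F g| ≤ K * nm D) (hc : Continuous nm) (h1 : nm 1 = 0) :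
    Continuous F := by
  refine continuous_iff_continuousAt.2 fun g => ?_
  refine tendsto_iff_norm_sub_tendsto_zero.2 ?_
  have h2 : Tendsto (fun g' : SL(2, ℝ) => K * nm (g⁻¹ * g')) (𝓝 g) (𝓝 0) := by
    have h3 : Continuous fun g' : SL(2, ℝ) => K * nm (g⁻¹ * g') := continuous_const.mul (hc.comp (continuous_const.mul continuous_id))
    have h4 := h3.tendsto g
    rwa [inv_mul_cancel, h1, mul_zero] at h4
  refine squeeze_zero (fun _ => norm_nonneg _) (fun g' => ?_) h2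
  have h5 := h g (g⁻¹ * g')
  rw [mul_inv_cancel_left] at h5
  exact h5

theorem NCH_con (Fn J W : ℝ → ℝ) (γ : ℝ → SL(2, ℝ)) (S : Set ℝ) (A B : ℝ) (hγ : Continuous γ) (hJ : ContinuousOn J S) (hW : ContinuousOn W S)
    (hc : Continuous nm) (h1 : nm 1 = 0) (h : ∀ t0 ∈ S, ∀ t ∈ S, |Fn t - Fn t0| ≤ A * nm ((γ t0)⁻¹ * γ t) + B * (|J t - J t0| + |W t - W t0|)) :
    ContinuousOn Fn S := by
  intro t0 ht0
  refine tendsto_iff_norm_sub_tendsto_zero.2 ?_
  have g1 : Tendsto (fun t => A * nm ((γ t0)⁻¹ * γ t)) (𝓝[S] t0) (𝓝 0) := by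
    have h3 : Continuous fun t => A * nm ((γ t0)⁻¹ * γ t) := continuous_const.mul (hc.comp (continuous_const.mul hγ))
    have h4 := (h3.tendsto t0).mono_left (nhdsWithin_le_nhds (s := S))
    rwa [inv_mul_cancel, h1, mul_zero] at h4
  have g2 : Tendsto (fun t => |J t - J t0|) (𝓝[S] t0) (𝓝 0) := by
    have h3 := (((hJ t0 ht0).tendsto).sub_const (J t0)).abs
    rwa [sub_self, abs_zero] at h3
  have g3 : Tendsto (fun t => |W t - W t0|) (𝓝[S] t0) (𝓝 0) := by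
    have h3 := (((hW t0 ht0).tendsto).sub_const (W t0)).abs
    rwa [sub_self, abs_zero] at h3
  have g4 : Tendsto (fun t => A * nm ((γ t0)⁻¹ * γ t) + B * (|J t - J t0| + |W t - W t0|)) (𝓝[S] t0) (𝓝 0) := by
    have h3 := g1.add ((g2.add g3).const_mul B)
    rwa [add_zero, mul_zero, add_zero] at h3
  refine squeeze_zero' (Eventually.of_forall fun _ => norm_nonneg _) ?_ g4
  filter_upwards [self_mem_nhdsWithin] with t ht
  exact h t0 ht0 t ht

theorem NCH_dgc (b c : ℝ → ℝ) (S : Set ℝ) (hb : ContinuousOn b S) (hc : ContinuousOn c S) (h : ∀ t ∈ S, 0 ≤ 1 + b t * c t) :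
    ContinuousOn (fun t => dg (b t) (c t)) S := by
  have hi : Topology.IsInducing (fun g : SL(2, ℝ) => (g.1 : Matrix (Fin 2) (Fin 2) ℝ)) := Topology.IsInducing.subtypeVal
  rw [hi.continuousOn_iff]
  have e : ∀ t ∈ S, ((fun g : SL(2, ℝ) => (g.1 : Matrix (Fin 2) (Fin 2) ℝ)) ∘ fun t => dg (b t) (c t)) t =
      !![√(1 + b t * c t), b t; c t, √(1 + b t * c t)] := fun t ht => NCH_dg (h t ht)
  refine ContinuousOn.congr ?_ e
  have hs : ContinuousOn (fun t => √(1 + b t * c t)) S := (continuousOn_const.add (hb.mul hc)).sqrt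
  refine continuousOn_pi.2 fun i => continuousOn_pi.2 fun j => ?_
  fin_cases i <;> fin_cases j
  · exact hs
  · exact hb
  · exact hc
  · exact hs

theorem NCH_proof (h1 : VQE.NMB_stmt) : NCH_stmt := by
  obtain ⟨n0, n1, -, -, -, -, n6, n7, -⟩ := h1
  have hn1 : nm 1 = 0 := (n1 1).2 rfl
  intro K hK
  have hK0 : 0 < K := by linarith
  have p6 : 1 ≤ K ^ 6 := one_le_pow₀ hK
  have p26 : K ^ 2 ≤ K ^ 6 := pow_le_pow_right₀ hK (by norm_num)
  have p46 : K ^ 4 ≤ K ^ 6 := pow_le_pow_right₀ hK (by norm_num)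
  have p16 : K ≤ K ^ 6 := le_self_pow₀ hK (by norm_num)
  refine ⟨16 * K ^ 6, by linarith, ?_⟩
  intro X hX
  have hp0 : ∀ g, X.p g ≠ 0 := fun g => (NCH_ip hK (hX.pb g)).1.ne'
  have hcp : Continuous X.p := NCH_cont X.p (fun g D => (hX.lip g D).1) n6 hn1
  have hcq : Continuous X.q := NCH_cont X.q (fun g D => (hX.lip g D).2.1) n6 hn1
  have hcm : Continuous X.m := NCH_cont X.m (fun g D => (hX.lip g D).2.2.1) n6 hn1
  have hck : Continuous X.κ := NCH_cont X.κ (fun g D => (hX.lip g D).2.2.2) n6 hn1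
  -- the bounds of the entries
  have hbc : ∀ (g : SL(2, ℝ)) (J W : ℝ), |bj X g J W| ≤ 16 * K ^ 6 * (|J| + |W|) ∧ |cj X g J W| ≤ 16 * K ^ 6 * (|J| + |W|) := by
    intro g J W
    obtain ⟨b1, b2⟩ := NCH_bj hK hX g J W
    have h : K ^ 2 * (|J| + |W|) ≤ 16 * K ^ 6 * (|J| + |W|) := mul_le_mul_of_nonneg_right (by linarith) (by positivity)
    exact ⟨b1.trans h, b2.trans h⟩
  have hJW : ∀ (g : SL(2, ℝ)) (J W : ℝ), -(X.p g * (bj X g J W + cj X g J W)) = J ∧
      (bj X g J W - cj X g J W) - X.m g * (bj X g J W + cj X g J W) = W := by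
    intro g J W
    have h := hp0 g
    unfold bj cj
    constructor
    · field_simp
      ring
    · field_simp
      ring
  have hcoef : ∀ (g : SL(2, ℝ)) (b c : ℝ), |-(X.p g * (b + c))| + |(b - c) - X.m g * (b + c)| ≤ 3 * K * (|b| + |c|) := by
    intro g b c
    have h1 : |-(X.p g * (b + c))| ≤ K * (|b| + |c|) := by
      rw [abs_neg, abs_mul, abs_of_pos (NCH_ip hK (hX.pb g)).1]
      exact mul_le_mul (hX.pb g).2 (abs_add_le _ _) (abs_nonneg _) hK0.le
    have h2 : |(b - c) - X.m g * (b + c)| ≤ (|b| + |c|) + K * (|b| + |c|) := by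
      refine (abs_sub _ _).trans (add_le_add (abs_sub _ _) ?_)
      rw [abs_mul]
      exact mul_le_mul (hX.qb g).2.1 (abs_add_le _ _) (abs_nonneg _) hK0.le
    have h3 : 0 ≤ |b| + |c| := by positivity
    nlinarith
  refine ⟨?_, ?_, ?_, ?_, ?_, hcp, hcq, hcm, hck, ?_⟩
  · intro g J W
    exact ⟨(hJW g J W).1, (hJW g J W).2, (hbc g J W).1, (hbc g J W).2⟩
  · intro g b c
    have h := hp0 g
    refine ⟨?_, ?_, (hcoef g b c).trans (mul_le_mul_of_nonneg_right (by linarith) (by positivity))⟩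
    · unfold bj
      field_simp
      ring
    · unfold cj
      field_simp
      ring
  · intro g
    have h := hp0 g
    have e1 : bj X g 0 0 = 0 := by unfold bj; simp
    have e2 : cj X g 0 0 = 0 := by unfold cj; simp
    have e3 : dg (0 : ℝ) 0 = 1 := by
      apply Subtype.ext
      rw [NCH_dg (by norm_num)]
      ext i j
      fin_cases i <;> fin_cases j <;> simp
    have e4 : sg X.p X.q g 0 0 = 1 := by
      unfold sg
      rw [e3, mul_one]
      simp [h]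
    have e5 : uj X g 0 0 = 0 := by
      unfold uj hu
      rw [e1, e2, e3, e4, mul_one]
      simp
    have e6 : vj X g 0 0 = 0 := by
      unfold vj hv
      rw [e1, e2, e3, e4, mul_one]
      simp
    unfold FJ FW
    rw [e1, e2, e5, e6]
    constructor <;> simp
  · intro g J W h
    have hr0 : 0 ≤ |J| + |W| := by positivity
    obtain ⟨s1, s2, s3, s4, s5⟩ := NCH_small hK hr0 h
    obtain ⟨b1, b2⟩ := NCH_bj hK hX g J W
    obtain ⟨c1, c2⟩ := NCH_sb hK hX (g := g) h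
    obtain ⟨x1, x2, x3, x4, x5, x6, x7⟩ := NCH_bc c1 c2
    have hnm : nm (pj X g J W) ≤ K ^ 2 * (|J| + |W|) := (n7 _ _ (by linarith) (by linarith)).trans (max_le b1 b2)
    have hent := NCH_dg x4
    have hpe : (pj X g J W).1 = !![√(1 + bj X g J W * cj X g J W), bj X g J W; cj X g J W, √(1 + bj X g J W * cj X g J W)] := hent
    have h16 : ∀ a : ℝ, 0 ≤ a → a ≤ 16 * K ^ 6 → a * (|J| + |W|) ≤ 16 * K ^ 6 * (|J| + |W|) := fun a _ h =>
      mul_le_mul_of_nonneg_right h hr0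
    refine ⟨hnm.trans (h16 _ (by positivity) (by linarith)), ?_, (NCH_sj hK hX n7 h).2.trans (h16 _ (by positivity) (by linarith)), ?_, ?_⟩
    · obtain ⟨m1, m2⟩ := NCH_nm (pj X g J W)
      have m1' : |bj X g J W| ≤ nm (pj X g J W) := by
        have e : (pj X g J W).1 0 1 = bj X g J W := by rw [hpe]; rfl
        rwa [e] at m1
      have m2' : |cj X g J W| ≤ nm (pj X g J W) := by
        have e : (pj X g J W).1 1 0 = cj X g J W := by rw [hpe]; rfl
        rwa [e] at m2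
      have h3 := hcoef g (bj X g J W) (cj X g J W)
      rw [(hJW g J W).1, (hJW g J W).2] at h3
      have h4 : 0 ≤ nm (pj X g J W) := n0 _
      calc |J| + |W| ≤ 3 * K * (|bj X g J W| + |cj X g J W|) := h3
        _ ≤ 3 * K * (nm (pj X g J W) + nm (pj X g J W)) := mul_le_mul_of_nonneg_left (add_le_add m1' m2') (by positivity)
        _ = 6 * K * nm (pj X g J W) := by ring
        _ ≤ 16 * K ^ 6 * nm (pj X g J W) := mul_le_mul_of_nonneg_right (by linarith) h4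
    · have e : (pj X g J W).1 0 0 = √(1 + bj X g J W * cj X g J W) := by rw [hpe]; rfl
      rw [e]
      refine x7.trans ?_
      rw [abs_mul]
      calc |bj X g J W| * |cj X g J W| ≤ (K ^ 2 * (|J| + |W|)) * (K ^ 2 * (|J| + |W|)) :=
            mul_le_mul b1 b2 (abs_nonneg _) (by positivity)
        _ = K ^ 4 * (|J| + |W|) ^ 2 := by ring
        _ ≤ 16 * K ^ 6 * (|J| + |W|) ^ 2 := mul_le_mul_of_nonneg_right (by linarith) (by positivity)
    · rw [hpe]
      rfl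
  · intro g E J W J' W' h h'
    have hr0 : 0 ≤ |J| + |W| := by positivity
    have hr0' : 0 ≤ |J'| + |W'| := by positivity
    obtain ⟨s1, -⟩ := NCH_small hK hr0 h
    obtain ⟨s1', -⟩ := NCH_small hK hr0' h'
    obtain ⟨b1, b2⟩ := NCH_bj hK hX g J W
    obtain ⟨b1', b2'⟩ := NCH_bj hK hX (g * E) J' W'
    obtain ⟨c1, c2⟩ := NCH_sb hK hX (g := g) h
    obtain ⟨c1', c2'⟩ := NCH_sb hK hX (g := g * E) h'
    obtain ⟨-, -, -, x4, -, -, -⟩ := NCH_bc c1 c2
    obtain ⟨-, -, -, x4', -, -, -⟩ := NCH_bc c1' c2'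
    obtain ⟨d1, d2⟩ := NCH_bd hK hX n0 g E J W J' W'
    obtain ⟨t1, t2⟩ := NCH_two c1 c2 c1' c2' d1 d2
    have hpe : (pj X g J W).1 = !![√(1 + bj X g J W * cj X g J W), bj X g J W; cj X g J W, √(1 + bj X g J W * cj X g J W)] := NCH_dg x4
    have hpe' : (pj X (g * E) J' W').1 = !![√(1 + bj X (g * E) J' W' * cj X (g * E) J' W'), bj X (g * E) J' W'; cj X (g * E) J' W',
      √(1 + bj X (g * E) J' W' * cj X (g * E) J' W')] := NCH_dg x4'
    set δ := |J - J'| + |W - W'| + nm E * (|J| + |W|) with hδ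
    have hδ0 : 0 ≤ δ := by
      have := n0 E
      positivity
    have hdiag : |√(1 + bj X (g * E) J' W' * cj X (g * E) J' W') - √(1 + bj X g J W * cj X g J W)| ≤
        16 * K ^ 6 * (|J| + |W| + |J'| + |W'|) * δ := by
      refine t1.trans ?_
      calc (|bj X (g * E) J' W'| + |cj X g J W|) * (2 * K ^ 4 * δ) ≤
            (K ^ 2 * (|J'| + |W'|) + K ^ 2 * (|J| + |W|)) * (2 * K ^ 4 * δ) :=
            mul_le_mul_of_nonneg_right (add_le_add b1' b2) (by positivity)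
        _ = 2 * K ^ 6 * (|J| + |W| + |J'| + |W'|) * δ := by ring
        _ ≤ 16 * K ^ 6 * (|J| + |W| + |J'| + |W'|) * δ := by
            refine mul_le_mul_of_nonneg_right (mul_le_mul_of_nonneg_right (by linarith) (by positivity)) hδ0
    have hdiag2 : |√(1 + bj X (g * E) J' W' * cj X (g * E) J' W') - √(1 + bj X g J W * cj X g J W)| ≤ 16 * K ^ 6 * δ := by
      refine t1.trans ?_
      have e : (|bj X (g * E) J' W'| + |cj X g J W|) ≤ 1 := by linarith
      calc (|bj X (g * E) J' W'| + |cj X g J W|) * (2 * K ^ 4 * δ) ≤ 1 * (2 * K ^ 4 * δ) := mul_le_mul_of_nonneg_right e (by positivity)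
        _ = 2 * K ^ 4 * δ := one_mul _
        _ ≤ 16 * K ^ 6 * δ := mul_le_mul_of_nonneg_right (by linarith) hδ0
    have hoff : 2 * K ^ 4 * δ ≤ 16 * K ^ 6 * δ := mul_le_mul_of_nonneg_right (by linarith) hδ0
    refine ⟨?_, ?_, ?_⟩
    · intro i j
      rw [hpe, hpe']
      fin_cases i <;> fin_cases j
      · exact hdiag2
      · exact d1.trans hoff
      · exact d2.trans hoff
      · exact hdiag2
    · intro i
      rw [hpe, hpe']
      fin_cases i
      · exact hdiag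
      · exact hdiag
    · refine t2.trans ?_
      calc 3 * (2 * K ^ 4 * δ) = 6 * K ^ 4 * δ := by ring
        _ ≤ 16 * K ^ 6 * δ := mul_le_mul_of_nonneg_right (by linarith) hδ0
  · intro T g J W hJ hW h
    have hγ : Continuous (fun t => X.f t g) := hX.flw.cont.comp (continuous_id.prodMk continuous_const)
    have hsm : ∀ t ∈ Icc (0 : ℝ) T, |J t| + |W t| ≤ 1 / K := fun t ht => (NCH_small hK (by positivity) (h t ht)).2.2.2.1
    have hp : ContinuousOn (fun t => X.p (X.f t g)) (Icc 0 T) := (hcp.comp hγ).continuousOn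
    have hq : ContinuousOn (fun t => X.q (X.f t g)) (Icc 0 T) := (hcq.comp hγ).continuousOn
    have hm : ContinuousOn (fun t => X.m (X.f t g)) (Icc 0 T) := (hcm.comp hγ).continuousOn
    have hb : ContinuousOn (fun t => bj X (X.f t g) (J t) (W t)) (Icc 0 T) := by
      unfold bj
      exact (hW.sub (((continuousOn_const.add hm).mul hJ).div hp fun t _ => hp0 _)).div_const 2
    have hc : ContinuousOn (fun t => cj X (X.f t g) (J t) (W t)) (Icc 0 T) := by
      unfold cj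
      exact (hW.neg.sub (((continuousOn_const.sub hm).mul hJ).div hp fun t _ => hp0 _)).div_const 2
    have hbc4 : ∀ t ∈ Icc (0 : ℝ) T, 0 ≤ 1 + bj X (X.f t g) (J t) (W t) * cj X (X.f t g) (J t) (W t) := by
      intro t ht
      obtain ⟨c1, c2⟩ := NCH_sb hK hX (g := X.f t g) (h t ht)
      exact (NCH_bc c1 c2).2.2.2.1
    have hdg := NCH_dgc _ _ _ hb hc hbc4
    have hgd : ContinuousOn (fun t => X.f t g * dg (bj X (X.f t g) (J t) (W t)) (cj X (X.f t g) (J t) (W t))) (Icc 0 T) :=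
      hγ.continuousOn.mul hdg
    have hp2 : ContinuousOn (fun t => X.p (X.f t g * dg (bj X (X.f t g) (J t) (W t)) (cj X (X.f t g) (J t) (W t)))) (Icc 0 T) :=
      hcp.comp_continuousOn hgd
    have hq2 : ContinuousOn (fun t => X.q (X.f t g * dg (bj X (X.f t g) (J t) (W t)) (cj X (X.f t g) (J t) (W t)))) (Icc 0 T) :=
      hcq.comp_continuousOn hgd
    have hs : ContinuousOn (fun t => √(1 + bj X (X.f t g) (J t) (W t) * cj X (X.f t g) (J t) (W t))) (Icc 0 T) :=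
      (continuousOn_const.add (hb.mul hc)).sqrt
    refine ⟨?_, ?_, ?_⟩
    · unfold sj sg
      refine ((hs.mul hp).sub ((hb.add hc).mul hq)).div ((hs.mul hp2).add ((hb.add hc).mul hq2)) fun t ht => ?_
      have := (NCH_sj hK hX n7 (g := X.f t g) (h t ht)).1
      have h2 : 0 < 1 / (2 * K) := by positivity
      exact (h2.trans_le this).ne'
    · refine NCH_con _ J W (fun t => X.f t g) (Icc 0 T) K (K ^ 2 + 2) hγ hJ hW n6 hn1 ?_
      intro t0 ht0 t ht
      have e1 := (hX.f2 (X.f t0 g) ((X.f t0 g)⁻¹ * X.f t g) (J t) (W t) (hsm t ht)).1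
      rw [mul_inv_cancel_left] at e1
      have e2 := (hX.f1 (X.f t0 g) (J t) (W t) (J t0) (W t0) (hsm t ht) (hsm t0 ht0)).1
      have k1 := hsm t ht
      have k2 := hsm t0 ht0
      have k3 : 1 / K ≤ 1 := by rw [div_le_one hK0]; exact hK
      have a1 := abs_nonneg (J t - J t0)
      have a2 := abs_nonneg (W t - W t0)
      have k4 : K * (|J t| + |W t| + |J t0| + |W t0|) ≤ 2 := by
        have : K * (1 / K) = 1 := by field_simp
        nlinarith
      have e3 : K * (|J t| + |W t| + |J t0| + |W t0|) * (|J t - J t0| + |W t - W t0|) ≤ 2 * (|J t - J t0| + |W t - W t0|) :=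
        mul_le_mul_of_nonneg_right k4 (by positivity)
      have hpK := hX.pb (X.f t0 g)
      have hpp := (NCH_ip hK hpK).1
      have e4 : |X.p (X.f t0 g) ^ 2 * (W t - W t0)| ≤ K ^ 2 * |W t - W t0| := by
        rw [abs_mul, abs_of_nonneg (by positivity)]
        exact mul_le_mul_of_nonneg_right (pow_le_pow_left₀ hpp.le hpK.2 2) a2
      have e5 : K * nm ((X.f t0 g)⁻¹ * X.f t g) * (|J t| + |W t|) ≤ K * nm ((X.f t0 g)⁻¹ * X.f t g) := by
        have : 0 ≤ K * nm ((X.f t0 g)⁻¹ * X.f t g) := mul_nonneg hK0.le (n0 _)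
        nlinarith
      have e6 : FJ X (X.f t g) (J t) (W t) - FJ X (X.f t0 g) (J t0) (W t0) =
          (FJ X (X.f t g) (J t) (W t) - FJ X (X.f t0 g) (J t) (W t)) +
          ((FJ X (X.f t0 g) (J t) (W t) - FJ X (X.f t0 g) (J t0) (W t0) - X.p (X.f t0 g) ^ 2 * (W t - W t0)) +
            X.p (X.f t0 g) ^ 2 * (W t - W t0)) := by ring
      rw [e6]
      refine (abs_add_le _ _).trans (add_le_add (e1.trans e5) ((abs_add_le _ _).trans ?_))
      have p2 : 0 ≤ K ^ 2 * |J t - J t0| := by positivity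
      have e7 : (K ^ 2 + 2) * (|J t - J t0| + |W t - W t0|) =
          K ^ 2 * |J t - J t0| + K ^ 2 * |W t - W t0| + 2 * (|J t - J t0| + |W t - W t0|) := by ring
      rw [e7]
      linarith
    · refine NCH_con _ J W (fun t => X.f t g) (Icc 0 T) K (K ^ 2 + 2) hγ hJ hW n6 hn1 ?_
      intro t0 ht0 t ht
      have e1 := (hX.f2 (X.f t0 g) ((X.f t0 g)⁻¹ * X.f t g) (J t) (W t) (hsm t ht)).2
      rw [mul_inv_cancel_left] at e1
      have e2 := (hX.f1 (X.f t0 g) (J t) (W t) (J t0) (W t0) (hsm t ht) (hsm t0 ht0)).2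
      have k1 := hsm t ht
      have k2 := hsm t0 ht0
      have k3 : 1 / K ≤ 1 := by rw [div_le_one hK0]; exact hK
      have a1 := abs_nonneg (J t - J t0)
      have a2 := abs_nonneg (W t - W t0)
      have k4 : K * (|J t| + |W t| + |J t0| + |W t0|) ≤ 2 := by
        have : K * (1 / K) = 1 := by field_simp
        nlinarith
      have e3 : K * (|J t| + |W t| + |J t0| + |W t0|) * (|J t - J t0| + |W t - W t0|) ≤ 2 * (|J t - J t0| + |W t - W t0|) :=
        mul_le_mul_of_nonneg_right k4 (by positivity)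
      have hkK := hX.kb (X.f t0 g)
      have hkp : 0 < X.κ (X.f t0 g) := lt_of_lt_of_le (by positivity) hkK.1
      have hKK : K ≤ K ^ 2 := le_self_pow₀ hK (by norm_num)
      have e4 : |X.κ (X.f t0 g) * (J t - J t0)| ≤ K ^ 2 * |J t - J t0| := by
        rw [abs_mul, abs_of_pos hkp]
        exact mul_le_mul_of_nonneg_right (hkK.2.trans hKK) a1
      have e5 : K * nm ((X.f t0 g)⁻¹ * X.f t g) * (|J t| + |W t|) ≤ K * nm ((X.f t0 g)⁻¹ * X.f t g) := by
        have : 0 ≤ K * nm ((X.f t0 g)⁻¹ * X.f t g) := mul_nonneg hK0.le (n0 _)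
        nlinarith
      have e6 : FW X (X.f t g) (J t) (W t) - FW X (X.f t0 g) (J t0) (W t0) =
          (FW X (X.f t g) (J t) (W t) - FW X (X.f t0 g) (J t) (W t)) +
          ((FW X (X.f t0 g) (J t) (W t) - FW X (X.f t0 g) (J t0) (W t0) - X.κ (X.f t0 g) * (J t - J t0)) +
            X.κ (X.f t0 g) * (J t - J t0)) := by ring
      rw [e6]
      refine (abs_add_le _ _).trans (add_le_add (e1.trans e5) ((abs_add_le _ _).trans ?_))
      have p2 : 0 ≤ K ^ 2 * |W t - W t0| := by positivity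
      have e7 : (K ^ 2 + 2) * (|J t - J t0| + |W t - W t0|) =
          K ^ 2 * |J t - J t0| + K ^ 2 * |W t - W t0| + 2 * (|J t - J t0| + |W t - W t0|) := by ring
      rw [e7]
      linarith

end Pool.Agent.VNE
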